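import Mathlib
import Pool.Agent.Lib.helper9.SetStab

set_option autoImplicit false

namespace Pool.Agent.Results.MP_5c8dfa_al.NoConstant

open Pool.Agent.Lib.helper9.SetStab

theorem result : ∀ C : ℕ, ∃ (Ω : Type) (_ : Finite Ω) (G : Subgroup (Equiv.Perm Ω))
    (H : Type) (_ : Group H) (_ : Finite H) (φ : G →* H),
    C ≤ Nat.card H ∧ Function.Surjective φ ∧
    (∀ a b : Ω, ∃ g : G, (g : Equiv.Perm Ω) a = b) ∧
    ∀ Δ : Set Ω, ∀ h : H, ∃ g : G, (g : Equiv.Perm Ω) '' Δ = Δ ∧ φ g = h := by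
  intro C
  have hQ : ∀ x : Fin C → ℤˣ, x * x = 1 := fun x => by
    funext i; exact Int.units_mul_self (x i)
  have key : ∀ (Δ : Set (Fin 3 × (Fin C → ℤˣ))) (h : Fin C → ℤˣ),
      ∃ g : (rho (Q := Fin C → ℤˣ)).range, (g : Equiv.Perm (Fin 3 × (Fin C → ℤˣ))) '' Δ = Δ ∧
        ((psi hQ).comp (MonoidHom.ofInjective rho_inj).symm.toMonoidHom) g = h := by
    intro Δ h
    obtain ⟨w, h1, h2⟩ := stab hQ Δ h
    exact ⟨MonoidHom.ofInjective rho_inj w, h1, by simpa using h2⟩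
  refine ⟨Fin 3 × (Fin C → ℤˣ), inferInstance, (rho (Q := Fin C → ℤˣ)).range, Fin C → ℤˣ,
    inferInstance, inferInstance,
    (psi hQ).comp (MonoidHom.ofInjective rho_inj).symm.toMonoidHom, ?_, ?_, ?_, key⟩
  · simp [Nat.lt_two_pow_self.le]
  · intro h
    obtain ⟨g, -, hg⟩ := key ∅ h
    exact ⟨g, hg⟩
  · intro a b
    obtain ⟨w, hw⟩ := trans a b
    exact ⟨⟨rho w, w, rfl⟩, hw⟩

end Pool.Agent.Results.MP_5c8dfa_al.NoConstant
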